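import Mathlib

section

set_option autoImplicit false

open Set Function Cardinal

namespace Pool.Agent.MP_36bcbe_gt

theorem exists_list_sum {G : Type} [AddCommGroup G] (h2 : ∀ x : G, x + x = 0) (S : Set G) {x : G}
    (hx : x ∈ AddSubgroup.closure S) : ∃ l : List S, (l.map Subtype.val).sum = x := by
  have hneg : ∀ x : G, -x = x := fun x => neg_eq_of_add_eq_zero_left (h2 x)
  induction hx using AddSubgroup.closure_induction with
  | mem x hx => exact ⟨[⟨x, hx⟩], by simp⟩
  | zero => exact ⟨[], by simp⟩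
  | add x y _ _ hx hy =>
    obtain ⟨l, rfl⟩ := hx
    obtain ⟨m, rfl⟩ := hy
    exact ⟨l ++ m, by simp⟩
  | neg x _ hx => rw [hneg]; exact hx

theorem mk_closure_lt {G : Type} [AddCommGroup G] (h2 : ∀ x : G, x + x = 0) {μ : Cardinal}
    (hμ : ℵ₀ < μ) (S : Set G) (hS : #S < μ) : #(AddSubgroup.closure S) < μ := by
  have hsub : ((AddSubgroup.closure S : AddSubgroup G) : Set G) ⊆
      range (fun l : List S => (l.map Subtype.val).sum) := fun x hx => exists_list_sum h2 S hx
  calc #(AddSubgroup.closure S) ≤ #(range (fun l : List S => (l.map Subtype.val).sum)) :=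
        mk_le_mk_of_subset hsub
    _ ≤ #(List S) := mk_range_le
    _ ≤ max ℵ₀ #S := mk_list_le_max _
    _ < μ := max_lt hμ hS

theorem exists_rec_seq {ι V : Type} [LinearOrder ι] [WellFoundedLT ι]
    (Q : ι → Set V → V → Prop) (ok : Set V → Prop)
    (hok : ∀ (i : ι) (s : Iio i → V), ok (range s))
    (hQ : ∀ i W, ok W → ∃ v, Q i W v) :
    ∃ s : ι → V, ∀ i, Q i (s '' Iio i) (s i) := by
  classical
  let F : (i : ι) → ((j : ι) → j < i → V) → V := fun i r =>
    Classical.choose (hQ i (range (fun j : Iio i => r j.1 j.2)) (hok i _))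
  let s : ι → V := (wellFounded_lt (α := ι)).fix F
  refine ⟨s, fun i => ?_⟩
  have h1 : s i = F i (fun j _ => s j) := (wellFounded_lt (α := ι)).fix_eq F i
  have h2 : s '' Iio i = range (fun j : Iio i => s j.1) := image_eq_range _ _
  rw [h1, h2]
  exact Classical.choose_spec (hQ i (range (fun j : Iio i => s j.1)) (hok i _))

theorem closure_step {G ι : Type} [AddCommGroup G] [LinearOrder ι] (h2 : ∀ x : G, x + x = 0)
    (E : Set G) (t : ι → G) (b : ι) (z : G) (hz : z ∈ AddSubgroup.closure (E ∪ t '' Iic b)) :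
    z ∈ AddSubgroup.closure (E ∪ t '' Iio b) ∨ z + t b ∈ AddSubgroup.closure (E ∪ t '' Iio b) := by
  have hneg : ∀ x : G, -x = x := fun x => neg_eq_of_add_eq_zero_left (h2 x)
  induction hz using AddSubgroup.closure_induction with
  | mem x hx =>
    rcases hx with hx | ⟨j, hj, rfl⟩
    · exact Or.inl (AddSubgroup.subset_closure (Or.inl hx))
    · rcases lt_or_eq_of_le (mem_Iic.1 hj) with h | h
      · exact Or.inl (AddSubgroup.subset_closure (Or.inr ⟨j, h, rfl⟩))
      · right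
        simp only [h, h2]
        exact zero_mem _
  | zero => exact Or.inl (zero_mem _)
  | add x y _ _ hx hy =>
    rcases hx with hx | hx <;> rcases hy with hy | hy
    · exact Or.inl (add_mem hx hy)
    · right; rw [add_assoc]; exact add_mem hx hy
    · right; rw [add_right_comm]; exact add_mem hx hy
    · left
      have := add_mem hx hy
      rwa [add_add_add_comm, h2, add_zero] at this
  | neg x _ hx => rw [hneg]; exact hx

theorem closure_lim {G ι : Type} [AddCommGroup G] [LinearOrder ι] (h2 : ∀ x : G, x + x = 0)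
    (E : Set G) (t : ι → G) (I : Set ι) (z : G) (hz : z ∈ AddSubgroup.closure (E ∪ t '' I)) :
    z ∈ AddSubgroup.closure E ∨ ∃ b ∈ I, z ∈ AddSubgroup.closure (E ∪ t '' Iic b) := by
  have hneg : ∀ x : G, -x = x := fun x => neg_eq_of_add_eq_zero_left (h2 x)
  have hE : ∀ b : ι, AddSubgroup.closure E ≤ AddSubgroup.closure (E ∪ t '' Iic b) := fun b =>
    AddSubgroup.closure_mono subset_union_left
  have hm : ∀ b c : ι, b ≤ c → AddSubgroup.closure (E ∪ t '' Iic b) ≤
      AddSubgroup.closure (E ∪ t '' Iic c) := fun b c h =>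
    AddSubgroup.closure_mono (union_subset_union_right _ (image_mono (Iic_subset_Iic.2 h)))
  induction hz using AddSubgroup.closure_induction with
  | mem x hx =>
    rcases hx with hx | ⟨j, hj, rfl⟩
    · exact Or.inl (AddSubgroup.subset_closure hx)
    · exact Or.inr ⟨j, hj, AddSubgroup.subset_closure (Or.inr ⟨j, mem_Iic.2 le_rfl, rfl⟩)⟩
  | zero => exact Or.inl (zero_mem _)
  | add x y _ _ hx hy =>
    rcases hx with hx | ⟨b, hb, hx⟩ <;> rcases hy with hy | ⟨c, hc, hy⟩
    · exact Or.inl (add_mem hx hy)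
    · exact Or.inr ⟨c, hc, add_mem (hE c hx) hy⟩
    · exact Or.inr ⟨b, hb, add_mem hx (hE b hy)⟩
    · rcases le_total b c with h | h
      · exact Or.inr ⟨c, hc, add_mem (hm _ _ h hx) hy⟩
      · exact Or.inr ⟨b, hb, add_mem hx (hm _ _ h hy)⟩
  | neg x _ hx => rw [hneg]; exact hx

theorem exists_two_subgroups {K : Type} [AddCommGroup K] (h2 : ∀ x : K, x + x = 0)
    {μ : Cardinal} (hμ : ℵ₀ < μ) (κ : Type) [Nonempty κ] (hκ : #κ ≤ μ) (E : Set K) (hE : #E < μ)
    (R : κ → Set K) (hR : ∀ k, μ ≤ #(R k)) :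
    ∃ G H : AddSubgroup K, E ⊆ G ∧ E ⊆ H ∧ (∀ z, z ∈ G → z ∈ H → z ∈ AddSubgroup.closure E) ∧
      (∀ k, ∃ x ∈ R k, x ∈ G) ∧ (∀ k, ∃ y ∈ R k, y ∈ H) := by
  classical
  let ι : Type := μ.ord.ToType
  have hι : #ι = μ := mk_ord_toType _
  obtain ⟨e⟩ : Nonempty (κ ↪ ι) := by
    rw [← Cardinal.le_def, hι]; exact hκ
  let σ : ι → κ := Function.invFun e
  have hσ : Surjective σ := Function.invFun_surjective e.injective
  let W : Set (K × K) → AddSubgroup K := fun T =>
    AddSubgroup.closure (E ∪ (Prod.fst '' T ∪ Prod.snd '' T))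
  have hout : ∀ k, ∀ U : Set K, #U < μ → ∃ x ∈ R k, x ∉ U := by
    intro k U hU
    by_contra hcon
    push Not at hcon
    exact absurd (lt_of_le_of_lt ((hR k).trans (mk_le_mk_of_subset hcon)) hU) (lt_irrefl _)
  obtain ⟨s, hs⟩ := exists_rec_seq (ι := ι) (V := K × K)
    (fun i T v => v.1 ∈ R (σ i) ∧ v.2 ∈ R (σ i) ∧ v.1 ∉ W T ∧ v.2 ∉ W T ∧ v.1 + v.2 ∉ W T)
    (fun T => #T < μ)
    (fun i s => by
      refine lt_of_le_of_lt mk_range_le ?_
      have := mk_Iio_lt i (by simp [ι])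
      rwa [hι] at this)
    (fun i T hT => by
      have hW : #(W T) < μ := by
        apply mk_closure_lt h2 hμ
        refine lt_of_le_of_lt (mk_union_le _ _) (add_lt_of_lt hμ.le hE ?_)
        refine lt_of_le_of_lt (mk_union_le _ _) (add_lt_of_lt hμ.le ?_ ?_)
        · exact lt_of_le_of_lt mk_image_le hT
        · exact lt_of_le_of_lt mk_image_le hT
      obtain ⟨x, hx, hxW⟩ := hout (σ i) (W T) hW
      obtain ⟨y, hy, hyW⟩ := hout (σ i) ((W T : Set K) ∪ (fun w => x + w) '' (W T))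
        (lt_of_le_of_lt (mk_union_le _ _) (add_lt_of_lt hμ.le hW
          (lt_of_le_of_lt mk_image_le hW)))
      refine ⟨(x, y), hx, hy, hxW, fun h => hyW (Or.inl h), fun h => hyW (Or.inr ⟨x + y, h, ?_⟩)⟩
      simp only
      rw [← add_assoc, h2, zero_add])
  let t1 : ι → K := fun j => (s j).1
  let t2 : ι → K := fun j => (s j).2
  have hW1 : ∀ i, AddSubgroup.closure (E ∪ t1 '' Iio i) ≤ W (s '' Iio i) := by
    intro i
    apply AddSubgroup.closure_mono
    apply union_subset_union_right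
    rintro _ ⟨j, hj, rfl⟩
    exact Or.inl ⟨s j, ⟨j, hj, rfl⟩, rfl⟩
  have hW2 : ∀ i, AddSubgroup.closure (E ∪ t2 '' Iio i) ≤ W (s '' Iio i) := by
    intro i
    apply AddSubgroup.closure_mono
    apply union_subset_union_right
    rintro _ ⟨j, hj, rfl⟩
    exact Or.inr ⟨s j, ⟨j, hj, rfl⟩, rfl⟩
  have hm : ∀ (t : ι → K) (b c : ι), b ≤ c → AddSubgroup.closure (E ∪ t '' Iic b) ≤
      AddSubgroup.closure (E ∪ t '' Iic c) := fun t b c h =>
    AddSubgroup.closure_mono (union_subset_union_right _ (image_mono (Iic_subset_Iic.2 h)))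
  have hred : ∀ (I : Set ι) (z : K), z ∈ AddSubgroup.closure (E ∪ t1 '' I) →
      z ∈ AddSubgroup.closure (E ∪ t2 '' I) → z ∈ AddSubgroup.closure E ∨
        ∃ b ∈ I, z ∈ AddSubgroup.closure (E ∪ t1 '' Iic b) ∧
          z ∈ AddSubgroup.closure (E ∪ t2 '' Iic b) := by
    intro I z h1 h2'
    rcases closure_lim h2 E t1 I z h1 with h | ⟨b, hb, h3⟩
    · exact Or.inl h
    · rcases closure_lim h2 E t2 I z h2' with h | ⟨c, hc, h4⟩
      · exact Or.inl h
      · rcases le_total b c with h | h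
        · exact Or.inr ⟨c, hc, hm t1 _ _ h h3, h4⟩
        · exact Or.inr ⟨b, hb, h3, hm t2 _ _ h h4⟩
  have hmain : ∀ (b : ι) (z : K), z ∈ AddSubgroup.closure (E ∪ t1 '' Iic b) →
      z ∈ AddSubgroup.closure (E ∪ t2 '' Iic b) → z ∈ AddSubgroup.closure E := by
    intro b
    induction b using WellFoundedLT.induction with
    | ind b ih =>
      intro z h1 h3
      rcases closure_step h2 E t1 b z h1 with h4 | h4 <;>
        rcases closure_step h2 E t2 b z h3 with h5 | h5
      · rcases hred _ z h4 h5 with h | ⟨c, hc, h6, h7⟩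
        · exact h
        · exact ih c hc z h6 h7
      · exfalso
        apply (hs b).2.2.2.1
        have := add_mem (hW1 b h4) (hW2 b h5)
        rwa [← add_assoc, h2, zero_add] at this
      · exfalso
        apply (hs b).2.2.1
        have := add_mem (hW2 b h5) (hW1 b h4)
        rwa [← add_assoc, h2, zero_add] at this
      · exfalso
        apply (hs b).2.2.2.2
        have := add_mem (hW1 b h4) (hW2 b h5)
        rwa [add_add_add_comm, h2, zero_add] at this
  refine ⟨AddSubgroup.closure (E ∪ t1 '' Set.univ), AddSubgroup.closure (E ∪ t2 '' Set.univ),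
    fun x hx => AddSubgroup.subset_closure (Or.inl hx),
    fun x hx => AddSubgroup.subset_closure (Or.inl hx), ?_, fun k => ?_, fun k => ?_⟩
  · intro z h1 h3
    rcases hred _ z h1 h3 with h | ⟨c, -, h6, h7⟩
    · exact h
    · exact hmain c z h6 h7
  · obtain ⟨a, rfl⟩ := hσ k
    exact ⟨(s a).1, (hs a).1, AddSubgroup.subset_closure (Or.inr ⟨a, mem_univ _, rfl⟩)⟩
  · obtain ⟨a, rfl⟩ := hσ k
    exact ⟨(s a).2, (hs a).2.1, AddSubgroup.subset_closure (Or.inr ⟨a, mem_univ _, rfl⟩)⟩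

end Pool.Agent.MP_36bcbe_gt

end

section

set_option autoImplicit false

open Set Function Cardinal Filter Topology TopologicalSpace

namespace Pool.Agent.MP_36bcbe_gt

variable {I : Type}

theorem z2_cases (a : ZMod 2) : a = 0 ∨ a = 1 := by
  revert a; decide

theorem cube_add_self (x : I → ZMod 2) : x + x = 0 := by
  funext i
  exact CharTwo.add_self_eq_zero (x i)

theorem exists_finset_of_mem_nhds {z : I → ZMod 2} {t : Set (I → ZMod 2)} (ht : t ∈ 𝓝 z) :
    ∃ F : Finset I, ∀ x : I → ZMod 2, (∀ i ∈ F, x i = z i) → x ∈ t := by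
  rw [nhds_pi, Filter.mem_pi] at ht
  obtain ⟨J, hJ, u, hu, hsub⟩ := ht
  refine ⟨hJ.toFinset, fun x hx => hsub fun i hi => ?_⟩
  rw [hx i (hJ.mem_toFinset.2 hi)]
  exact mem_of_mem_nhds (hu i)

theorem agree_mem_nhds (z : I → ZMod 2) (F : Finset I) :
    {x : I → ZMod 2 | ∀ i ∈ F, x i = z i} ∈ 𝓝 z := by
  have : ∀ i : I, ∀ᶠ x in 𝓝 z, x i = z i := fun i => by
    have : Tendsto (fun x : I → ZMod 2 => x i) (𝓝 z) (𝓝 (z i)) := (continuous_apply i).tendsto z
    rwa [nhds_discrete (ZMod 2), tendsto_pure] at this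
  exact (eventually_all_finset F).2 fun i _ => this i

theorem exists_finset_of_mem_nhds_sub {G : AddSubgroup (I → ZMod 2)} {z : G} {t : Set G}
    (ht : t ∈ 𝓝 z) : ∃ F : Finset I, ∀ x : G, (∀ i ∈ F, x.1 i = z.1 i) → x ∈ t := by
  rw [nhds_subtype, mem_comap] at ht
  obtain ⟨u, hu, hsub⟩ := ht
  obtain ⟨F, hF⟩ := exists_finset_of_mem_nhds hu
  exact ⟨F, fun x hx => hsub (hF x.1 hx)⟩

/-- a dense sequence in the cube -/
theorem exists_dense_seq_cube (hI : #I ≤ 𝔠) :
    ∃ e : ℕ → I → ZMod 2, ∀ (F : Finset I) (y : I → ZMod 2), ∃ a, ∀ i ∈ F, e a i = y i := by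
  classical
  obtain ⟨φ⟩ : Nonempty (I ↪ (ℕ → Bool)) := by
    rw [← Cardinal.le_def]
    simpa using hI
  let D : Type := Σ m : ℕ, (Fin m → Bool) → ZMod 2
  have : Nonempty D := ⟨⟨0, fun _ => 0⟩⟩
  obtain ⟨s, hs⟩ := exists_surjective_nat D
  refine ⟨fun a i => (s a).2 fun k => φ i k, fun F y => ?_⟩
  have hsep : ∀ p : I × I, ∃ n : ℕ, p.1 ≠ p.2 → φ p.1 n ≠ φ p.2 n := by
    intro p
    by_cases h : p.1 = p.2
    · exact ⟨0, fun h' => absurd h h'⟩
    · obtain ⟨n, hn⟩ := Function.ne_iff.1 (φ.injective.ne h)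
      exact ⟨n, fun _ => hn⟩
  choose n hn using hsep
  let m : ℕ := (F ×ˢ F).sup n + 1
  have hinj : ∀ i ∈ F, ∀ j ∈ F, (fun k : Fin m => φ i k) = (fun k : Fin m => φ j k) → i = j := by
    intro i hi j hj h
    by_contra hne
    have h1 : n (i, j) < m :=
      Nat.lt_succ_of_le (Finset.le_sup (f := n) (Finset.mem_product.2 ⟨hi, hj⟩))
    exact hn (i, j) hne (congrFun h ⟨n (i, j), h1⟩)
  let g : (Fin m → Bool) → ZMod 2 := fun w =>
    if h : ∃ i ∈ F, (fun k : Fin m => φ i k) = w then y h.choose else 0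
  obtain ⟨a, ha⟩ := hs ⟨m, g⟩
  refine ⟨a, fun i hi => ?_⟩
  have h1 : ∃ j ∈ F, (fun k : Fin m => φ j k) = (fun k : Fin m => φ i k) := ⟨i, hi, rfl⟩
  have h2 : h1.choose = i := hinj _ h1.choose_spec.1 _ hi h1.choose_spec.2
  change (s a).2 (fun k => φ i k) = y i
  rw [ha]
  change g (fun k : Fin m => φ i k) = y i
  simp only [g, dif_pos h1, h2]

/-- the linear retraction coded by `r` -/
def ret (r : I → Finset I) (y : I → ZMod 2) : I → ZMod 2 := fun i => ∑ j ∈ r i, y j

/-- the free coordinates of `r` -/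
def free (r : I → Finset I) : Set I := {j | r j = {j}}

theorem ret_free {r : I → Finset I} (y : I → ZMod 2) {j : I} (hj : j ∈ free r) :
    ret r y j = y j := by
  unfold ret
  rw [show r j = {j} from hj, Finset.sum_singleton]

theorem continuous_ret (r : I → Finset I) : Continuous (ret r) :=
  continuous_pi fun _ => continuous_finsetSum _ fun j _ => continuous_apply j

theorem structure_thm (S : Set (I → ZMod 2)) (h0 : 0 ∈ S) (hadd : ∀ x ∈ S, ∀ y ∈ S, x + y ∈ S) :
    ∃ r : I → Finset I, (∀ i, ∀ j ∈ r i, j ∈ free r) ∧ (∀ x ∈ S, ret r x = x) ∧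
      ∀ (F : Finset I) (y : I → ZMod 2), (∀ j ∈ F, j ∈ free r) → ∃ x ∈ S, ∀ j ∈ F, x j = y j := by
  classical
  let f : I → S → ZMod 2 := fun i x => x.1 i
  obtain ⟨J, -, -, hspan, hind⟩ := exists_linearIndepOn_extension (K := ZMod 2) (v := f)
    (s := ∅) (t := Set.univ) (linearIndepOn_empty _ _) (empty_subset _)
  have hrep : ∀ i, ∃ t : Finset I, (∀ j ∈ t, j ∈ J) ∧ ∀ x : S, x.1 i = ∑ j ∈ t, x.1 j := by
    intro i
    obtain ⟨l, hl, hli⟩ := (Finsupp.mem_span_image_iff_linearCombination _).1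
      (hspan ⟨i, mem_univ _, rfl⟩)
    refine ⟨l.support, fun j hj => (Finsupp.mem_supported _ _).1 hl hj, fun x => ?_⟩
    have := congrFun hli x
    rw [Finsupp.linearCombination_apply, Finsupp.sum, Finset.sum_apply] at this
    change _ = x.1 i at this
    rw [← this]
    refine Finset.sum_congr rfl fun j hj => ?_
    have h1 : l j = 1 := (z2_cases (l j)).resolve_left (Finsupp.mem_support_iff.1 hj)
    simp [h1, f]
  choose t htJ ht using hrep
  let r : I → Finset I := fun i => if i ∈ J then {i} else t i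
  have hJfree : ∀ j ∈ J, j ∈ free r := fun j hj => by simp [free, r, hj]
  have hfreeJ : ∀ j ∈ free r, j ∈ J := fun j hj => by
    by_contra h
    have h1 : t j = {j} := by simpa [free, r, h] using hj
    exact h (htJ j j (by simp [h1]))
  refine ⟨r, fun i j hj => ?_, fun x hx => ?_, fun F y hF => ?_⟩
  · by_cases hi : i ∈ J
    · simp only [r, if_pos hi, Finset.mem_singleton] at hj
      exact hj ▸ hJfree i hi
    · simp only [r, if_neg hi] at hj
      exact hJfree j (htJ i j hj)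
  · funext i
    by_cases hi : i ∈ J
    · exact ret_free x (hJfree i hi)
    · simp only [ret, r, if_neg hi]
      exact (ht i ⟨x, hx⟩).symm
  · have h1 : LinearIndependent (ZMod 2) (fun j : F => f j) :=
      (hind.mono (t := (F : Set I)) fun j hj => hfreeJ j (hF j hj))
    have h2 := span_flip_eq_top_iff_linearIndependent.2 h1
    have h3 : ∀ w ∈ Submodule.span (ZMod 2) (range (flip fun j : F => f j)),
        ∃ x ∈ S, ∀ j : F, x j = w j := by
      intro w hw
      induction hw using Submodule.span_induction with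
      | mem w hw =>
        obtain ⟨x, rfl⟩ := hw
        exact ⟨x.1, x.2, fun _ => rfl⟩
      | zero => exact ⟨0, h0, fun _ => rfl⟩
      | add a b _ _ ha hb =>
        obtain ⟨x, hx, hxa⟩ := ha
        obtain ⟨x', hx', hxb⟩ := hb
        exact ⟨x + x', hadd x hx x' hx', fun j => by simp [hxa j, hxb j]⟩
      | smul c a _ ha =>
        rcases z2_cases c with h | h
        · exact ⟨0, h0, fun j => by simp [h]⟩
        · simpa [h] using ha
    obtain ⟨x, hx, hxy⟩ := h3 (fun j : F => y j) (h2 ▸ Submodule.mem_top)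
    exact ⟨x, hx, fun j hj => hxy ⟨j, hj⟩⟩

theorem agree_of_free {r : I → Finset I} {x z : I → ZMod 2} (hx : ret r x = x) (hz : ret r z = z)
    [DecidableEq I] {F : Finset I} (h : ∀ j ∈ F.biUnion r, x j = z j) : ∀ i ∈ F, x i = z i := by
  intro i hi
  rw [← hx, ← hz]
  exact Finset.sum_congr rfl fun j hj => h j (Finset.mem_biUnion.2 ⟨i, hi, hj⟩)

theorem mk_perturb (Φ : (I → ZMod 2) → (I → ZMod 2)) (ψ : I → I) (hψ : Injective ψ)
    (hΦ : ∀ x i, Φ x (ψ i) = x (ψ i)) (a : I → ZMod 2) :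
    #(I → ZMod 2) ≤ #(range fun β : I → ZMod 2 => Φ (a + Function.extend ψ β 0)) := by
  rw [mk_range_eq]
  intro β β' h
  funext i
  have := congrFun h (ψ i)
  simp only [hΦ, Pi.add_apply, hψ.extend_apply] at this
  exact add_left_cancel this

theorem bounded_of_fill {G : AddSubgroup (I → ZMod 2)}
    (hfill : ∀ B : Set I, B.Countable → ∀ a : I → ZMod 2, ∃ g : G, ∀ i ∈ B, g.1 i = a i)
    (f : G → ℝ) (hf : Continuous f) : ∃ C : ℝ, ∀ x, |f x| ≤ C := by
  classical
  by_contra hcon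
  push Not at hcon
  choose g hg using fun n : ℕ => hcon n
  have h1 : ∀ n : ℕ, ∃ F : Finset I, ∀ x : G, (∀ i ∈ F, x.1 i = (g n).1 i) → (n : ℝ) < |f x| :=
    fun n => exists_finset_of_mem_nhds_sub
      ((isOpen_lt continuous_const hf.abs).mem_nhds (hg n))
  choose F hF using h1
  obtain ⟨x, hx⟩ := exists_clusterPt_of_compactSpace (map (fun n => (g n).1) atTop)
  obtain ⟨p, hp⟩ := hfill (⋃ n, (F n : Set I)) (countable_iUnion fun n => (F n).countable_toSet) x
  obtain ⟨F', hF'⟩ : ∃ F' : Finset I, ∀ y : G, (∀ i ∈ F', y.1 i = p.1 i) → |f y| < |f p| + 1 :=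
    exists_finset_of_mem_nhds_sub ((isOpen_lt hf.abs continuous_const).mem_nhds (by simp))
  have h2 : ∃ᶠ n in atTop, ∀ i ∈ F', (g n).1 i = x i :=
    (mapClusterPt_iff_frequently.1 hx) _ (agree_mem_nhds x F')
  obtain ⟨N, hN⟩ := exists_nat_ge (|f p| + 1)
  obtain ⟨n, hn, hnN⟩ := (h2.and_eventually (eventually_ge_atTop N)).exists
  obtain ⟨h, hh⟩ := hfill ((F n : Set I) ∪ F') ((F n).countable_toSet.union F'.countable_toSet)
    (fun i => if i ∈ F n then (g n).1 i else p.1 i)
  have h3 := hF n h fun i hi => by rw [hh i (Or.inl hi), if_pos hi]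
  have h4 := hF' h fun i hi => by
    rw [hh i (Or.inr hi)]
    by_cases hi' : i ∈ F n
    · rw [if_pos hi', hn i hi, hp i (mem_iUnion.2 ⟨n, hi'⟩)]
    · rw [if_neg hi']
  have h5 : (N : ℝ) ≤ n := Nat.cast_le.2 hnN
  linarith

theorem separable_of_req {G : AddSubgroup (I → ZMod 2)}
    (hreq : ∀ r : I → Finset I, ¬ (free r).Countable → ∃ d : ℕ × ℕ → G,
      (∀ n, ∃ y, (d n).1 = ret r y) ∧ ∀ (F : Finset I) (y : I → ZMod 2), (∀ j ∈ F, j ∈ free r) →
        ∃ n, ∀ j ∈ F, (d n).1 j = y j)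
    (S : Set G) (h0 : 0 ∈ S) (hadd : ∀ x ∈ S, ∀ y ∈ S, x + y ∈ S) (hS : IsClosed S) :
    SeparableSpace S := by
  classical
  obtain ⟨r, hr, hfix, hsurj⟩ := structure_thm (Subtype.val '' S) ⟨0, h0, rfl⟩ (by
    rintro _ ⟨x, hx, rfl⟩ _ ⟨y, hy, rfl⟩
    exact ⟨x + y, hadd x hx y hy, rfl⟩)
  have hidem : ∀ y, ret r (ret r y) = ret r y := fun y =>
    funext fun i => Finset.sum_congr rfl fun j hj => ret_free y (hr i j hj)
  have hbi : ∀ F : Finset I, ∀ j ∈ F.biUnion r, j ∈ free r := fun F j hj => by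
    obtain ⟨i, -, hi⟩ := Finset.mem_biUnion.1 hj
    exact hr i j hi
  by_cases hc : (free r).Countable
  · have : Countable (free r) := hc.to_subtype
    let p : S → (free r → ZMod 2) := fun x j => x.1.1 j
    have hp : IsInducing p := by
      refine isInducing_iff_nhds.2 fun x => le_antisymm ?_ ?_
      · refine (Continuous.tendsto ?_ x).le_comap
        exact continuous_pi fun j => (continuous_apply j.1).comp
          (continuous_subtype_val.comp continuous_subtype_val)
      · intro t ht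
        rw [nhds_subtype, mem_comap] at ht
        obtain ⟨u, hu, hsub⟩ := ht
        obtain ⟨F, hF⟩ := exists_finset_of_mem_nhds_sub hu
        refine mem_comap.2 ⟨_, agree_mem_nhds (p x) ((F.biUnion r).subtype (· ∈ free r)),
          fun y hy => hsub (hF y.1 ?_)⟩
        refine agree_of_free (hfix _ ⟨y.1, y.2, rfl⟩) (hfix _ ⟨x.1, x.2, rfl⟩) fun j hj => ?_
        exact hy ⟨j, hbi F j hj⟩ (Finset.mem_subtype.2 hj)
    have := hp.secondCountableTopology
    infer_instance
  · obtain ⟨d, hd1, hd2⟩ := hreq r hc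
    have hdfix : ∀ n, ret r (d n).1 = (d n).1 := fun n => by
      obtain ⟨y, hy⟩ := hd1 n
      rw [hy, hidem]
    have hdS : ∀ n, d n ∈ S := fun n => by
      rw [← hS.closure_eq, mem_closure_iff_nhds]
      intro t ht
      obtain ⟨F, hF⟩ := exists_finset_of_mem_nhds_sub ht
      obtain ⟨_, ⟨x, hx, rfl⟩, hxd⟩ := hsurj (F.biUnion r) (d n).1 (hbi F)
      exact ⟨x, hF x (agree_of_free (hfix _ ⟨x, hx, rfl⟩) (hdfix n) hxd), hx⟩
    refine ⟨⟨range fun n => (⟨d n, hdS n⟩ : S), countable_range _, fun x => ?_⟩⟩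
    rw [mem_closure_iff_nhds]
    intro t ht
    rw [nhds_subtype, mem_comap] at ht
    obtain ⟨u, hu, hsub⟩ := ht
    obtain ⟨F, hF⟩ := exists_finset_of_mem_nhds_sub hu
    obtain ⟨n, hn⟩ := hd2 (F.biUnion r) x.1.1 (hbi F)
    exact ⟨⟨d n, hdS n⟩, hsub (hF _ (agree_of_free (hdfix n) (hfix _ ⟨x.1, x.2, rfl⟩) hn)), n, rfl⟩

end Pool.Agent.MP_36bcbe_gt

end

section

set_option autoImplicit false

open Set Function Cardinal Filter Topology TopologicalSpace

namespace Pool.Agent.MP_36bcbe_gt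

variable {I : Type}

theorem countable_iff_lt (s : Set I) : s.Countable ↔ #s < ℵ₁ := by
  rw [lt_aleph_one_iff, le_aleph0_iff_set_countable]

theorem exists_inj_into (hI : #I = ℵ₁) {J : Set I} (hJ : ¬ J.Countable) :
    ∃ ψ : (ℕ × ℕ) × I → I, Injective ψ ∧ ∀ p, ψ p ∈ J := by
  have h1 : #((ℕ × ℕ) × I) ≤ #J := by
    have h2 : ℵ₁ ≤ #J := not_lt.1 fun h => hJ ((countable_iff_lt J).2 h)
    refine le_trans (le_of_eq ?_) h2
    simp [hI, mul_eq_right aleph0_lt_aleph_one.le aleph0_lt_aleph_one.le aleph0_ne_zero]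
  obtain ⟨e⟩ := (Cardinal.le_def _ _).1 h1
  exact ⟨fun p => (e p).1, fun p q h => e.injective (Subtype.ext h), fun p => (e p).2⟩

/-- the basic compact set -/
noncomputable def base (I : Type) [DecidableEq I] : Set (I → ZMod 2) :=
  insert 0 (range fun i : I => Pi.single i 1)

theorem isCompact_base [DecidableEq I] : IsCompact (base I) := by
  apply Tendsto.isCompact_insert_range_of_cofinite
  rw [tendsto_pi_nhds]
  intro j
  rw [nhds_discrete, tendsto_pure]
  filter_upwards [eventually_cofinite_ne j] with i hi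
  exact Pi.single_eq_of_ne hi.symm _

theorem finite_supp [DecidableEq I] {x : I → ZMod 2} (hx : x ∈ AddSubgroup.closure (base I)) :
    {i | x i ≠ 0}.Finite := by
  induction hx using AddSubgroup.closure_induction with
  | mem x hx =>
    rcases hx with rfl | ⟨j, rfl⟩
    · simp
    · refine (finite_singleton j).subset fun i hi => ?_
      by_contra h
      exact hi (Pi.single_eq_of_ne h _)
  | zero => simp
  | add x y _ _ hx hy =>
    refine (hx.union hy).subset fun i hi => ?_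
    by_contra h
    simp only [mem_union, mem_ofPred_eq, not_or, not_not] at h
    exact hi (by simp [h.1, h.2])
  | neg x _ hx => simpa using hx

theorem exists_groups [DecidableEq I] (hI : #I = ℵ₁) :
    ∃ G H : AddSubgroup (I → ZMod 2), base I ⊆ G ∧ base I ⊆ H ∧
      (∀ z, z ∈ G → z ∈ H → z ∈ AddSubgroup.closure (base I)) ∧
      ∀ L : AddSubgroup (I → ZMod 2), L = G ∨ L = H →
        (∀ f : L → ℝ, Continuous f → ∃ C : ℝ, ∀ x, |f x| ≤ C) ∧
        ∀ S : Set L, 0 ∈ S → (∀ x ∈ S, ∀ y ∈ S, x + y ∈ S) → IsClosed S → SeparableSpace S := by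
  classical
  have hunc : ¬ (Set.univ : Set I).Countable := by
    rw [countable_iff_lt, mk_univ, hI]; exact lt_irrefl _
  have hinf : Infinite I := by
    rw [infinite_iff, hI]; exact aleph0_lt_aleph_one.le
  have hμ : #(I → ZMod 2) = 2 ^ ℵ₁ := by simp [hI]
  have hlt : ℵ₁ < #(I → ZMod 2) := by rw [hμ]; exact cantor _
  have hω : ℵ₀ < #(I → ZMod 2) := aleph0_lt_aleph_one.trans hlt
  obtain ⟨e, he⟩ := exists_dense_seq_cube (I := I) (hI ▸ aleph_one_le_continuum)
  have hcompl : ∀ B : ℕ → I, ¬ ((range B)ᶜ).Countable := fun B h =>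
    hunc (by rw [← union_compl_self (range B)]; exact (countable_range B).union h)
  have hψ1 : ∀ r : I → Finset I, ∃ ψ : (ℕ × ℕ) × I → I, Injective ψ ∧
      (¬ (free r).Countable → ∀ p, ψ p ∈ free r) := fun r => by
    by_cases h : (free r).Countable
    · obtain ⟨ψ, h1, -⟩ := exists_inj_into hI hunc
      exact ⟨ψ, h1, fun h' => absurd h h'⟩
    · obtain ⟨ψ, h1, h2⟩ := exists_inj_into hI h
      exact ⟨ψ, h1, fun _ => h2⟩
  choose ψ hψ hψJ using hψ1
  choose χ hχ hχB using fun B : ℕ → I => exists_inj_into hI (hcompl B)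
  let κ : Type := ((I → Finset I) × (ℕ × ℕ)) ⊕ ((ℕ → I) × (I → ZMod 2))
  let R : κ → Set (I → ZMod 2) := fun k => match k with
    | Sum.inl (r, n) => if (free r).Countable then Set.univ else
        range fun β : I → ZMod 2 => ret r (e n.1 + Function.extend (fun i => ψ r (n, i)) β 0)
    | Sum.inr (B, a) =>
        range fun β : I → ZMod 2 => id (a + Function.extend (fun i => χ B ((0, 0), i)) β 0)
  have hκ : #κ ≤ #(I → ZMod 2) := by
    have h1 : #(I → Finset I) = #(I → ZMod 2) := by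
      rw [hμ, ← power_self_eq aleph0_lt_aleph_one.le]
      simp [hI]
    have h2 : #(ℕ → I) ≤ #(I → ZMod 2) := by
      rw [hμ, ← power_self_eq aleph0_lt_aleph_one.le]
      simp only [mk_pi, prod_const, lift_id, mk_nat, hI]
      exact power_le_power_left (aleph_pos 1).ne' aleph0_lt_aleph_one.le
    have h3 : #(ℕ × ℕ) ≤ #(I → ZMod 2) := mk_le_aleph0.trans hω.le
    simp only [κ, mk_sum, lift_id]
    refine add_le_of_le hω.le ?_ ?_
    · rw [mk_prod, lift_id, lift_id]
      exact mul_le_of_le hω.le h1.le h3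
    · rw [mk_prod, lift_id, lift_id]
      exact mul_le_of_le hω.le h2 le_rfl
  have hE : #(base I) < #(I → ZMod 2) := by
    refine lt_of_le_of_lt mk_insert_le (add_lt_of_lt hω.le ?_ (one_lt_aleph0.trans hω))
    exact lt_of_le_of_lt mk_range_le (hI ▸ hlt)
  have hR : ∀ k, #(I → ZMod 2) ≤ #(R k) := by
    rintro (⟨r, n⟩ | ⟨B, a⟩)
    · by_cases h : (free r).Countable
      · simp only [R, if_pos h, mk_univ, le_refl]
      · simp only [R, if_neg h]
        exact mk_perturb (ret r) _ (fun i j hij => (Prod.ext_iff.1 (hψ r hij)).2)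
          (fun x i => ret_free x (hψJ r h _)) _
    · exact mk_perturb id _ (fun i j hij => (Prod.ext_iff.1 (hχ B hij)).2) (fun _ _ => rfl) _
  have : Nonempty κ := ⟨Sum.inl (fun _ => ∅, 0, 0)⟩
  obtain ⟨G, H, hG, hH, hGH, hRG, hRH⟩ := exists_two_subgroups cube_add_self hω κ hκ _ hE R hR
  refine ⟨G, H, hG, hH, hGH, fun L hL => ?_⟩
  have hRL : ∀ k, ∃ x ∈ R k, x ∈ L := by
    rcases hL with rfl | rfl
    · exact hRG
    · exact hRH
  refine ⟨bounded_of_fill fun B hB a => ?_, separable_of_req fun r hr => ?_⟩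
  · obtain ⟨i₀⟩ : Nonempty I := inferInstance
    obtain ⟨b, hb⟩ := (hB.insert i₀).exists_eq_range (insert_nonempty _ _)
    obtain ⟨_, ⟨β, rfl⟩, hx⟩ := hRL (Sum.inr (b, a))
    refine ⟨⟨_, hx⟩, fun i hi => ?_⟩
    have h1 : ¬ ∃ j, χ b ((0, 0), j) = i := by
      rintro ⟨j, rfl⟩
      refine hχB b ((0, 0), j) ?_
      rw [← hb]
      exact Or.inr hi
    simp only [id, Pi.add_apply]
    rw [Function.extend_apply' _ _ _ h1]
    simp
  · have h1 : ∀ n : ℕ × ℕ, ∃ β : I → ZMod 2,
        ret r (e n.1 + Function.extend (fun i => ψ r (n, i)) β 0) ∈ L := fun n => by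
      obtain ⟨x, hx, hxL⟩ := hRL (Sum.inl (r, n))
      simp only [R, if_neg hr] at hx
      obtain ⟨β, rfl⟩ := hx
      exact ⟨β, hxL⟩
    choose β hβ using h1
    refine ⟨fun n => ⟨_, hβ n⟩, fun n => ⟨_, rfl⟩, fun F y hF => ?_⟩
    obtain ⟨a, ha⟩ := he F y
    have h2 : {b : ℕ | ∃ i, ψ r ((a, b), i) ∈ F}.Finite := by
      have h3 : ((ψ r) ⁻¹' (F : Set I)).Finite := F.finite_toSet.preimage (hψ r).injOn
      refine (h3.image fun p => p.1.2).subset ?_
      rintro b ⟨i, hi⟩
      exact ⟨((a, b), i), hi, rfl⟩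
    obtain ⟨b, hb⟩ := h2.infinite_compl.nonempty
    refine ⟨(a, b), fun j hj => ?_⟩
    have h4 : ¬ ∃ i, ψ r ((a, b), i) = j := by
      rintro ⟨i, rfl⟩
      exact hb ⟨i, hj⟩
    simp only [ret_free _ (hF j hj), Pi.add_apply]
    rw [Function.extend_apply' _ _ _ h4, ha j hj]
    simp

theorem diag_props [DecidableEq I] (hI : #I = ℵ₁) {G H : AddSubgroup (I → ZMod 2)}
    (hG : base I ⊆ G) (hH : base I ⊆ H)
    (hGH : ∀ z, z ∈ G → z ∈ H → z ∈ AddSubgroup.closure (base I)) :
    IsClosed {p : G × H | p.1.1 = p.2.1} ∧ IsSigmaCompact {p : G × H | p.1.1 = p.2.1} ∧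
      ¬ SeparableSpace {p : G × H | p.1.1 = p.2.1} := by
  refine ⟨isClosed_eq (continuous_subtype_val.comp continuous_fst)
    (continuous_subtype_val.comp continuous_snd), ?_, ?_⟩
  · have : CompactSpace (base I) := isCompact_iff_compactSpace.1 isCompact_base
    let m : ∀ n : ℕ, (Fin n → base I) → G × H := fun n v =>
      (⟨∑ k, (v k).1, sum_mem fun k _ => hG (v k).2⟩, ⟨∑ k, (v k).1, sum_mem fun k _ => hH (v k).2⟩)
    have hm : ∀ n, Continuous (m n) := fun n => by
      have h1 : Continuous fun v : Fin n → base I => ∑ k, (v k).1 :=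
        continuous_finsetSum _ fun k _ => continuous_subtype_val.comp (continuous_apply k)
      exact (h1.subtype_mk _).prodMk (h1.subtype_mk _)
    refine ⟨fun n => range (m n), fun n => isCompact_range (hm n), ?_⟩
    ext p
    constructor
    · intro hp
      obtain ⟨n, v, rfl⟩ := mem_iUnion.1 hp
      rfl
    · intro hp
      have hp' : p.1.1 = p.2.1 := hp
      obtain ⟨l, hl⟩ := exists_list_sum cube_add_self _ (hGH p.1.1 p.1.2 (hp' ▸ p.2.2))
      have h2 : ∑ k : Fin l.length, (l.get k).1 = p.1.1 := by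
        rw [← hl, ← List.sum_ofFn]
        congr 1
        rw [← List.ofFn_get l, List.map_ofFn]
        simp [Function.comp_def]
      exact mem_iUnion.2 ⟨l.length, l.get, Prod.ext (Subtype.ext h2) (Subtype.ext (h2.trans hp'))⟩
  · rintro ⟨D, hD, hdense⟩
    have h1 : (⋃ p ∈ D, {i | p.1.1.1 i ≠ 0}).Countable :=
      hD.biUnion fun p _ => (finite_supp (hGH p.1.1.1 p.1.1.2
        ((show p.1.1.1 = p.1.2.1 from p.2) ▸ p.1.2.2))).countable
    obtain ⟨i, hi⟩ : ∃ i, i ∉ ⋃ p ∈ D, {i | p.1.1.1 i ≠ 0} := by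
      by_contra hcon
      push Not at hcon
      rw [eq_univ_of_forall hcon, countable_iff_lt, mk_univ, hI] at h1
      exact lt_irrefl _ h1
    have hb : (Pi.single i 1 : I → ZMod 2) ∈ base I := Or.inr ⟨i, rfl⟩
    have hc : Continuous fun p : {p : G × H | p.1.1 = p.2.1} => p.1.1.1 i :=
      (continuous_apply i).comp
        (continuous_subtype_val.comp (continuous_fst.comp continuous_subtype_val))
    have hO : IsOpen {p : {p : G × H | p.1.1 = p.2.1} | p.1.1.1 i = 1} :=
      (isOpen_discrete {(1 : ZMod 2)}).preimage hc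
    obtain ⟨p, hp1, hp2⟩ := hdense.inter_open_nonempty _ hO
      ⟨⟨(⟨_, hG hb⟩, ⟨_, hH hb⟩), rfl⟩, by simp⟩
    refine hi (mem_iUnion₂.2 ⟨p, hp2, ?_⟩)
    change p.1.1.1 i ≠ 0
    rw [show p.1.1.1 i = 1 from hp1]
    exact one_ne_zero

end Pool.Agent.MP_36bcbe_gt

end
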